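import Pool.Agent.H705.SD.Res

set_option autoImplicit false

/-!
Resolution: the depth is at most the total space times the width of a space-aware refutation, up to
polylogarithmic factors.

The search for a violated step of the refutation is played with one potential, the capacity of an
interval of times (the maximal entropy of a mixture of its configurations). At every scale there is
a reference interval at the beginning of the current interval with almost the same capacity. By
concavity every interval of almost full capacity then contains a configuration with few clauses that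
are new with respect to the references of all scales. These new clauses are evaluated by the same
strategy at the next scale, and a falsified old clause leads to an interval of smaller capacity.
-/

namespace Pool.Agent.Results.MP_ad9061_lc.SpaceWidthDepth

open Finset

/-- Clauses over the variables `Fin n`; `(v, true)` is the literal `v` and `(v, false)` its negation. -/
abbrev Clause (n : ℕ) : Type := Finset (Fin n × Bool)

/-- All resolution refutations of `F` have depth at least `D`: no clause set that is obtained from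
clauses of `F` in fewer than `D` rounds of resolution contains the empty clause. -/
def DepthGE {n : ℕ} (F : Finset (Clause n)) (D : ℕ) : Prop :=
  ∀ S : ℕ → Set (Finset (Fin n × Bool)),
    (∀ C ∈ S 0, C ∈ F) →
    (∀ j : ℕ, ∀ C ∈ S (j + 1), C ∈ S j ∨ ∃ A ∈ S j, ∃ B ∈ S j, ∃ v : Fin n,
        (v, true) ∈ A ∧ (v, false) ∈ B ∧ C = A.erase (v, true) ∪ B.erase (v, false)) →
    ∀ j < D, (∅ : Finset (Fin n × Bool)) ∉ S j

/-- `cfg 0, ..., cfg τ` is a space-aware refutation of `F`. -/
def SpaceRef {n : ℕ} (F : Finset (Clause n)) (τ : ℕ) (cfg : ℕ → Finset (Clause n)) : Prop :=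
  cfg 0 = ∅ ∧ (∅ : Finset (Fin n × Bool)) ∈ cfg τ ∧
    ∀ t < τ, (∃ C ∈ F, cfg (t + 1) = insert C (cfg t)) ∨
      (∃ A ∈ cfg t, ∃ B ∈ cfg t, ∃ v : Fin n, (v, true) ∈ A ∧ (v, false) ∈ B ∧
        cfg (t + 1) = insert (A.erase (v, true) ∪ B.erase (v, false)) (cfg t)) ∨
      cfg (t + 1) ⊆ cfg t

lemma arith {s w l u : ℝ} (hs : 1 ≤ s) (hw : 1 ≤ w) (hu : 0 ≤ u) (hl : Real.log 2 ≤ l) :
    20 * (u + 1) ^ 2 * w * ((s * l + 3) / Real.log 2) + 2 * s * (2 * u + 1) ≤
      110 * (u + 1) ^ 2 * s * w * (l / Real.log 2) := by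
  have h1 : (0.6931 : ℝ) < Real.log 2 := by
    have := Real.log_two_gt_d9
    linarith
  have hl2 : 0 < Real.log 2 := by linarith
  set y := l / Real.log 2 with hy
  have hy1 : 1 ≤ y := by rw [hy, le_div_iff₀ hl2]; linarith
  have e1 : (s * l + 3) / Real.log 2 = s * y + 3 / Real.log 2 := by
    rw [hy]; field_simp
  have h3 : 3 / Real.log 2 ≤ 4.35 := by
    rw [div_le_iff₀ hl2]
    nlinarith
  have hsy : 1 ≤ s * y := by nlinarith
  have h4 : (s * l + 3) / Real.log 2 ≤ 5.35 * (s * y) := by
    rw [e1]; linarith
  have h5 : 20 * (u + 1) ^ 2 * w * ((s * l + 3) / Real.log 2) ≤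
      20 * (u + 1) ^ 2 * w * (5.35 * (s * y)) := by
    apply mul_le_mul_of_nonneg_left h4
    positivity
  have h6 : 2 * s * (2 * u + 1) ≤ 2 * s * ((u + 1) ^ 2) := by
    apply mul_le_mul_of_nonneg_left _ (by linarith)
    nlinarith [sq_nonneg u]
  have hwy : 1 ≤ w * y := by nlinarith
  have h7 : 2 * s * (u + 1) ^ 2 ≤ 2 * s * (u + 1) ^ 2 * (w * y) := by
    have : 0 ≤ 2 * s * (u + 1) ^ 2 := by positivity
    nlinarith
  have h8 : 0 ≤ (u + 1) ^ 2 * s * w * y := by positivity
  have e2 : 20 * (u + 1) ^ 2 * w * (5.35 * (s * y)) = 107 * ((u + 1) ^ 2 * s * w * y) := by ring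
  have e3 : 2 * s * (u + 1) ^ 2 * (w * y) = 2 * ((u + 1) ^ 2 * s * w * y) := by ring
  have e4 : 110 * (u + 1) ^ 2 * s * w * y = 110 * ((u + 1) ^ 2 * s * w * y) := by ring
  rw [e4]
  linarith

/-- **Depth is at most total space times width, up to logarithms.**
Let `F` be a CNF in `n` variables all of whose resolution refutations have depth at least `D`.
Every space-aware refutation of `F` of total space at most `s` all of whose clauses have width at
most `w` satisfies `D ≤ 110 (⌊log₂ (s / w)⌋ + 1)² s w log₂ (2n)`. -/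
theorem result (n : ℕ) (F : Finset (Clause n)) (D τ s w : ℕ) (cfg : ℕ → Finset (Clause n))
    (hD : DepthGE F D) (hcfg : SpaceRef F τ cfg) (hs : ∀ t ≤ τ, ∑ C ∈ cfg t, C.card ≤ s)
    (hw : ∀ t ≤ τ, ∀ C ∈ cfg t, C.card ≤ w) :
    (D : ℝ) ≤ 110 * ((Nat.log 2 (s / w) : ℝ) + 1) ^ 2 * s * w * Real.logb 2 (2 * n) := by
  classical
  obtain ⟨h0, h1, h2⟩ := hcfg
  have hlev : ∀ j < D, (∅ : Finset (Fin n × Bool)) ∉ Pool.Agent.H561R2.VS.lev F j :=
    hD (Pool.Agent.H561R2.VS.lev F) (fun C hC => hC) (fun j C hC => hC)
  have hcard : ∀ t ≤ τ, ∀ C ∈ cfg t, C.card ≤ s := by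
    intro t ht C hC
    exact (Finset.single_le_sum (f := fun C : Clause n => C.card) (fun _ _ => Nat.zero_le _) hC).trans
      (hs t ht)
  have hl2 : 0 < Real.log 2 := Real.log_pos (by norm_num)
  by_cases hF : (∅ : Finset (Fin n × Bool)) ∈ F
  · have hD0 : D = 0 := by
      by_contra hne
      exact hlev 0 (Nat.pos_of_ne_zero hne) hF
    rw [hD0]
    have : 0 ≤ Real.logb 2 (2 * n) := by
      rcases Nat.eq_zero_or_pos n with h | h
      · rw [h]; simp
      · apply Real.logb_nonneg (by norm_num)
        have : (1 : ℝ) ≤ n := by exact_mod_cast h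
        linarith
    push_cast
    positivity
  · -- some clause is nonempty
    have hne : ∃ t ≤ τ, ∃ C ∈ cfg t, C ≠ ∅ := by
      by_contra hcon
      push Not at hcon
      have : ∀ t ≤ τ, cfg t = ∅ := by
        intro t
        induction t with
        | zero => intro _; exact h0
        | succ t ih =>
          intro ht
          have hprev := ih (by omega)
          rcases h2 t (by omega) with ⟨C, hC, h3⟩ | ⟨A, hA, _⟩ | h3
          · have h4 : C = ∅ := hcon (t + 1) ht C (by rw [h3]; exact Finset.mem_insert_self _ _)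
            rw [h4] at hC
            exact absurd hC hF
          · rw [hprev] at hA
            simp at hA
          · rw [hprev] at h3
            exact Finset.subset_empty.1 h3
      rw [this τ le_rfl] at h1
      simp at h1
    obtain ⟨t0, ht0, C0, hC0, hne0⟩ := hne
    have hC0c : 1 ≤ C0.card := Finset.card_pos.2 (Finset.nonempty_iff_ne_empty.2 hne0)
    have hs1 : 1 ≤ s := hC0c.trans (hcard t0 ht0 C0 hC0)
    have hw1 : 1 ≤ w := hC0c.trans (hw t0 ht0 C0 hC0)
    have hn1 : 1 ≤ n := by
      obtain ⟨l, hl⟩ := Finset.card_pos.1 hC0c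
      have := l.1.isLt
      omega
    have hw1' : 1 ≤ min w s := le_min hw1 hs1
    have hlogeq : Nat.log 2 (s / min w s) = Nat.log 2 (s / w) := by
      rcases le_total w s with h | h
      · rw [min_eq_left h]
      · rw [min_eq_right h, Nat.div_self hs1]
        rcases Nat.eq_or_lt_of_le h with h' | h'
        · rw [← h', Nat.div_self hs1]
        · rw [Nat.div_eq_of_lt h']
          simp
    obtain ⟨N, hmem, hN⟩ := Pool.Agent.H705.SD.lev_nest hn1 hw1' (min_le_right w s) h0 h1 h2 hs
      (fun t ht C hC => le_min (hw t ht C hC) (hcard t ht C hC))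
    rw [hlogeq] at hN
    have hDN : D ≤ N := by
      by_contra hcon
      exact hlev _ (by omega) hmem
    have hn' : (1 : ℝ) ≤ n := by exact_mod_cast hn1
    have hlog : Real.log 2 ≤ Real.log (2 * n) := Real.log_le_log (by norm_num) (by linarith)
    have h3 : (D : ℝ) ≤ N := by exact_mod_cast hDN
    refine h3.trans (hN.trans ?_)
    refine (arith (by exact_mod_cast hs1) (by exact_mod_cast hw1') (Nat.cast_nonneg _) hlog).trans ?_
    rw [Real.logb]
    apply mul_le_mul_of_nonneg_right _ (div_nonneg (hl2.le.trans hlog) hl2.le)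
    apply mul_le_mul_of_nonneg_left _ (by positivity)
    exact_mod_cast min_le_left w s

end Pool.Agent.Results.MP_ad9061_lc.SpaceWidthDepth
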